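import Pool.Agent.H826Z.PS.Main

namespace Pool.Agent.Results.MP_3a79a1_al.EfficientStability

open Pool.Agent.H826Z.PS

open Classical in
/-- The groups `(Z/2)^k`, `k ≥ 4`, have presentations of size polynomial in `g = log |G|`, with
uniform distribution on generators that are spread over the group (no proper subgroup contains
more than a fraction `501/1000` of them), which are stable in permutations with rate
`A * log log |G| * ε`, hence with rate `A * (log log |G|)^A * ε^1`. -/
theorem result : ∃ A : ℕ, 1 ≤ A ∧ ∀ k : ℕ, 4 ≤ k →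
    ∃ (S : Type) (_ : Fintype S) (_ : DecidableEq S) (P : WPres S)
      (π : PresentedGroup (P.R : Set (FreeGroup S)) ≃* Multiplicative (Fin k → ZMod 2)),
      ∀ g : ℝ, g = Real.log (Nat.card (Multiplicative (Fin k → ZMod 2))) →
        (Fintype.card S : ℝ) ≤ A * g ^ A ∧ (P.R.card : ℝ) ≤ A * g ^ A ∧
        (∀ r ∈ P.R, (r.norm : ℝ) ≤ A * g ^ A) ∧
        (∀ s, P.muS s = 1 / Fintype.card S) ∧ (∀ r ∈ P.R, 0 < P.muR r) ∧
        (∀ H : Subgroup (Multiplicative (Fin k → ZMod 2)), H ≠ ⊤ →
          ∑ s with π (PresentedGroup.of s) ∈ H, P.muS s ≤ 501 / 1000) ∧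
        IsStable P (fun ε => A * Real.log g * ε) ∧
        IsStable P (fun ε => A * Real.log g ^ A * ε ^ (1 : ℝ)) :=
  main

end Pool.Agent.Results.MP_3a79a1_al.EfficientStability
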